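import Pool.Agent.R60.Rainbow

/-!
# MP_415bd8_co, Q1: no bounded colour surplus forces rainbow subgraphs

For every `k` let `H` be the disjoint union of a star `K_{1,k+3}` and a matching with `k + 2` edges,
and let `G` consist of `k + 9` disjoint copies of `K_{k+1,k+1}` and one more vertex (the hub), which
is adjacent to all the others. Then every proper edge colouring of `G` with at most `χ'(G) + k`
colours contains a rainbow copy of `H`, but some proper edge colouring does not: colour all copies of
`K_{k+1,k+1}` with the same `k + 1` colours, which are not used at the hub.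
-/

set_option autoImplicit false

namespace Pool.Agent.Results.MP_415bd8_co.NoUniformSurplus

open Pool.Agent.R60.Rainbow

/-- The non-hub vertices of `G`: component, side, position. -/
abbrev P (k : ℕ) : Type := Fin (k + 9) × Bool × Fin (k + 1)

/-- The graph `G`: `none` is the hub. -/
def bigG (k : ℕ) : SimpleGraph (Option (P k)) where
  Adj x y := match x, y with
    | none, none => False
    | none, some _ => True
    | some _, none => True
    | some p, some q => p.1 = q.1 ∧ p.2.1 ≠ q.2.1
  symm := ⟨by
    rintro (_ | p) (_ | q) h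
    · exact h
    · trivial
    · trivial
    · exact ⟨h.1.symm, h.2.symm⟩⟩
  loopless := ⟨by
    rintro (_ | p) h
    · exact h
    · exact h.2 rfl⟩

/-- The graph `H`: a star with `k + 3` edges and a matching with `k + 2` edges. -/
def smallH (k : ℕ) : SimpleGraph (Option (Fin (k + 3)) ⊕ (Fin (k + 2) × Bool)) where
  Adj x y := match x, y with
    | .inl none, .inl (some _) => True
    | .inl (some _), .inl none => True
    | .inr p, .inr q => p.1 = q.1 ∧ p.2 ≠ q.2
    | _, _ => False
  symm := ⟨by
    rintro ((_ | i) | p) ((_ | j) | q) h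
    · exact h
    · trivial
    · exact h
    · trivial
    · exact h
    · exact h
    · exact h
    · exact h
    · exact ⟨h.1.symm, h.2.symm⟩⟩
  loopless := ⟨by
    rintro ((_ | i) | p) h
    · exact h
    · exact h
    · exact h.2 rfl⟩

lemma edge_smallH (k : ℕ) (e : Sym2 (Option (Fin (k + 3)) ⊕ (Fin (k + 2) × Bool)))
    (he : e ∈ (smallH k).edgeSet) :
    (∃ i, e = s(.inl none, .inl (some i))) ∨ ∃ m, e = s(.inr (m, false), .inr (m, true)) := by
  induction e using Sym2.ind with
  | _ x y =>
    rcases x with (_ | i) | ⟨m, b⟩ <;> rcases y with (_ | j) | ⟨m', b'⟩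
    · exact he.elim
    · exact Or.inl ⟨j, rfl⟩
    · exact he.elim
    · exact Or.inl ⟨i, Sym2.eq_swap⟩
    · exact he.elim
    · exact he.elim
    · exact he.elim
    · exact he.elim
    · obtain ⟨h1, h2⟩ : m = m' ∧ b ≠ b' := he
      subst h1
      cases b <;> cases b'
      · exact (h2 rfl).elim
      · exact Or.inr ⟨m, rfl⟩
      · exact Or.inr ⟨m, Sym2.eq_swap⟩
      · exact (h2 rfl).elim

lemma eq_of_pair {p q r : Bool} (h1 : p ≠ q) (h2 : p ≠ r) : q = r := by
  cases p <;> cases q <;> cases r <;> simp_all

/-! ### A proper colouring with `χ'` colours -/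

/-- The colours of the first colouring are the non-hub vertices. -/
def pre1 (k : ℕ) : Sym2 (Option (P k)) → P k :=
  Sym2.lift ⟨fun x y => match x, y with
    | none, none => (0, false, 0)
    | none, some p => p
    | some p, none => p
    | some p, some q => (min p.1 q.1 + 1, false, p.2.2 + q.2.2), by
      rintro (_ | p) (_ | q)
      · rfl
      · rfl
      · rfl
      · simp only [min_comm, add_comm]⟩

/-- The first colouring. -/
noncomputable def col1 (k : ℕ) (e : Sym2 (Option (P k))) : ℕ :=
  (Fintype.equivFin (P k) (pre1 k e) : ℕ)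

lemma col1_eq {k : ℕ} {e e' : Sym2 (Option (P k))} (h : col1 k e = col1 k e') :
    pre1 k e = pre1 k e' :=
  (Fintype.equivFin (P k)).injective (Fin.ext h)

lemma add_one_ne {k : ℕ} (i : Fin (k + 9)) : i + 1 ≠ i := by
  intro h
  have h1 : (1 : Fin (k + 9)) = 0 := add_eq_left.1 h
  simp at h1

lemma proper1 (k : ℕ) : IsProper (bigG k) (col1 k) := by
  rintro (_ | p) (_ | q) (_ | r) h1 h2 hne
  · exact h1.elim
  · exact h1.elim
  · exact h2.elim
  · intro h
    exact hne (congrArg some (col1_eq h))
  · exact (hne rfl).elim
  · intro h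
    have h3 : p = (min p.1 r.1 + 1, false, p.2.2 + r.2.2) := col1_eq h
    rw [← h2.1, min_self] at h3
    exact add_one_ne p.1 (congrArg Prod.fst h3).symm
  · intro h
    have h3 : (min p.1 q.1 + 1, false, p.2.2 + q.2.2) = p := col1_eq h
    rw [← h1.1, min_self] at h3
    exact add_one_ne p.1 (congrArg Prod.fst h3)
  · intro h
    have h3 : ((min p.1 q.1 + 1, false, p.2.2 + q.2.2) : P k)
      = (min p.1 r.1 + 1, false, p.2.2 + r.2.2) := col1_eq h
    have h4 : p.2.2 + q.2.2 = p.2.2 + r.2.2 := congrArg (fun z => z.2.2) h3
    apply hne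
    congr 1
    refine Prod.ext (h1.1.symm.trans h2.1) (Prod.ext (eq_of_pair h1.2 h2.2) (add_left_cancel h4))

lemma card_some (k : ℕ) : (Set.range (some : P k → Option (P k))).ncard = Fintype.card (P k) := by
  rw [← Set.image_univ, (Option.some_injective _).injOn.ncard_image, Set.ncard_univ,
    Nat.card_eq_fintype_card]

lemma chi (k : ℕ) : chromaticIndex (bigG k) = Fintype.card (P k) := by
  refine chromaticIndex_eq (col1 k) (proper1 k) ?_ none (Set.range some) ?_ (card_some k)
  · intro e _
    exact (Fintype.equivFin (P k) (pre1 k e)).2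
  · rintro _ ⟨p, rfl⟩
    trivial

/-! ### A proper colouring without a rainbow copy -/

/-- The colours of the second colouring: those at the hub, and `k + 1` more. -/
def pre2 (k : ℕ) : Sym2 (Option (P k)) → P k ⊕ Fin (k + 1) :=
  Sym2.lift ⟨fun x y => match x, y with
    | none, none => .inr 0
    | none, some p => .inl p
    | some p, none => .inl p
    | some p, some q => .inr (p.2.2 + q.2.2), by
      rintro (_ | p) (_ | q)
      · rfl
      · rfl
      · rfl
      · simp only [add_comm]⟩

/-- The second colouring. -/
noncomputable def col2 (k : ℕ) (e : Sym2 (Option (P k))) : ℕ :=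
  (Fintype.equivFin (P k ⊕ Fin (k + 1)) (pre2 k e) : ℕ)

lemma col2_eq {k : ℕ} {e e' : Sym2 (Option (P k))} (h : col2 k e = col2 k e') :
    pre2 k e = pre2 k e' :=
  (Fintype.equivFin (P k ⊕ Fin (k + 1))).injective (Fin.ext h)

lemma proper2 (k : ℕ) : IsProper (bigG k) (col2 k) := by
  rintro (_ | p) (_ | q) (_ | r) h1 h2 hne
  · exact h1.elim
  · exact h1.elim
  · exact h2.elim
  · intro h
    have h3 : (Sum.inl q : P k ⊕ Fin (k + 1)) = Sum.inl r := col2_eq h
    exact hne (congrArg some (Sum.inl_injective h3))
  · exact (hne rfl).elim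
  · intro h
    have h3 : (Sum.inl p : P k ⊕ Fin (k + 1)) = Sum.inr (p.2.2 + r.2.2) := col2_eq h
    exact Sum.inl_ne_inr h3
  · intro h
    have h3 : (Sum.inr (p.2.2 + q.2.2) : P k ⊕ Fin (k + 1)) = Sum.inl p := col2_eq h
    exact Sum.inr_ne_inl h3
  · intro h
    have h3 : (Sum.inr (p.2.2 + q.2.2) : P k ⊕ Fin (k + 1)) = Sum.inr (p.2.2 + r.2.2) := col2_eq h
    have h4 : p.2.2 + q.2.2 = p.2.2 + r.2.2 := Sum.inr_injective h3
    apply hne
    congr 1
    refine Prod.ext (h1.1.symm.trans h2.1) (Prod.ext (eq_of_pair h1.2 h2.2) (add_left_cancel h4))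

lemma part2 (k : ℕ) : ∃ c : Sym2 (Option (P k)) → ℕ,
    IsProper (bigG k) c ∧ ¬ HasRainbowCopy (smallH k) (bigG k) c := by
  refine ⟨col2 k, proper2 k, ?_⟩
  rintro ⟨f, hf, hadj, hcol⟩
  -- the centre goes to the hub
  have h0 : f (.inl none) = none := by
    rcases hx : f (.inl none) with _ | p
    · rfl
    exfalso
    have hnb : ∀ i, (bigG k).Adj (some p) (f (.inl (some i))) := by
      intro i
      rw [← hx]
      exact hadj _ _ trivial
    let ψ : Fin (k + 3) → Option (Fin (k + 1)) := fun i =>
      (f (.inl (some i))).map (fun q => q.2.2)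
    have hψ : Function.Injective ψ := by
      intro i j hij
      have hi := hnb i
      have hj := hnb j
      have key : f (.inl (some i)) = f (.inl (some j)) := by
        rcases hfi : f (.inl (some i)) with _ | q <;> rcases hfj : f (.inl (some j)) with _ | r
        · rfl
        · simp [ψ, hfi, hfj] at hij
        · simp [ψ, hfi, hfj] at hij
        · rw [hfi] at hi
          rw [hfj] at hj
          simp only [ψ, hfi, hfj, Option.map_some, Option.some.injEq] at hij
          congr 1
          exact Prod.ext (hi.1.symm.trans hj.1) (Prod.ext (eq_of_pair hi.2 hj.2) hij)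
      have := hf key
      simpa using this
    have := Fintype.card_le_of_injective ψ hψ
    simp at this
  -- the matching edges
  have hm : ∀ m b, ∃ p, f (.inr (m, b)) = some p := by
    intro m b
    rcases h : f (.inr (m, b)) with _ | p
    · have := hf (h.trans h0.symm)
      simp at this
    · exact ⟨p, rfl⟩
  choose u hu using hm
  let ψ : Fin (k + 2) → Fin (k + 1) := fun m => (u m false).2.2 + (u m true).2.2
  have hψ : Function.Injective ψ := by
    intro m m' hmm
    by_contra hne
    have e1 : (smallH k).Adj (.inr (m, false)) (.inr (m, true)) := ⟨rfl, by simp⟩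
    have e2 : (smallH k).Adj (.inr (m', false)) (.inr (m', true)) := ⟨rfl, by simp⟩
    refine hcol s(.inr (m, false), .inr (m, true)) e1
      s(.inr (m', false), .inr (m', true)) e2 ?_ ?_
    · intro h
      rw [Sym2.eq_iff] at h
      simp [hne] at h
    · rw [Sym2.map_mk, Sym2.map_mk]
      simp only [hu]
      have : pre2 k s(some (u m false), some (u m true))
          = pre2 k s(some (u m' false), some (u m' true)) := congrArg Sum.inr hmm
      rw [col2, col2, this]
  have := Fintype.card_le_of_injective ψ hψ
  simp at this

/-! ### Every colouring with few colours has a rainbow copy -/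

lemma part1 (k : ℕ) (c : Sym2 (Option (P k)) → ℕ) (hc : IsProper (bigG k) c)
    (hn : numColours (bigG k) c ≤ chromaticIndex (bigG k) + k) :
    HasRainbowCopy (smallH k) (bigG k) c := by
  classical
  rw [chi] at hn
  have sinj : ∀ p q : P k, c s(none, some p) = c s(none, some q) → p = q := by
    intro p q h
    by_contra hne
    exact hc none (some p) (some q) trivial trivial (fun h => hne (Option.some_injective _ h)) h
  have hadj : ∀ (i : Fin (k + 9)) (b : Bool) (x y : Fin (k + 1)),
      (bigG k).Adj (some (i, b, x)) (some (i, !b, y)) := by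
    intro i b x y
    exact ⟨rfl, by cases b <;> simp⟩
  -- the set of all colours
  let A : Finset ℕ := (Set.toFinite (c '' (bigG k).edgeSet)).toFinset
  have hA : ∀ x y, (bigG k).Adj x y → c s(x, y) ∈ A := by
    intro x y h
    simp only [A, Set.Finite.mem_toFinset]
    exact ⟨_, h, rfl⟩
  have hAcard : A.card ≤ Fintype.card (P k) + k := by
    rw [numColours, Set.ncard_eq_toFinset_card _ (Set.toFinite _)] at hn
    exact hn
  let S : Finset ℕ := Finset.univ.image (fun p : P k => c s(none, some p))
  have hScard : S.card = Fintype.card (P k) := by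
    rw [Finset.card_image_of_injective _ (fun p q h => sinj p q h), Finset.card_univ]
  -- a set of k + 1 colours contains a star colour
  have hmeet : ∀ B : Finset ℕ, B ⊆ A → k + 1 ≤ B.card → ∃ p : P k, c s(none, some p) ∈ B := by
    intro B hB hBc
    by_contra hcon
    push Not at hcon
    have hdis : Disjoint B S := by
      rw [Finset.disjoint_left]
      intro b hb hbS
      obtain ⟨p, _, rfl⟩ := Finset.mem_image.1 hbS
      exact hcon p hb
    have hsub : B ∪ S ⊆ A := by
      apply Finset.union_subset hB
      intro b hb
      obtain ⟨p, _, rfl⟩ := Finset.mem_image.1 hb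
      exact hA _ _ trivial
    have := Finset.card_le_card hsub
    rw [Finset.card_union_of_disjoint hdis] at this
    omega
  -- colours of the components
  let Q : Fin (k + 9) → Finset ℕ := fun i =>
    Finset.univ.image (fun z : Fin (k + 1) × Fin (k + 1) =>
      c s(some (i, false, z.1), some (i, true, z.2)))
  have hQA : ∀ i, Q i ⊆ A := by
    intro i b hb
    obtain ⟨z, _, rfl⟩ := Finset.mem_image.1 hb
    exact hA _ _ (hadj i false z.1 z.2)
  let N : P k → Finset ℕ := fun p =>
    Finset.univ.image (fun y : Fin (k + 1) => c s(some p, some (p.1, !p.2.1, y)))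
  have hNQ : ∀ p, N p ⊆ Q p.1 := by
    rintro ⟨i, b, x⟩ a ha
    obtain ⟨y, _, rfl⟩ := Finset.mem_image.1 ha
    cases b
    · exact Finset.mem_image.2 ⟨(x, y), Finset.mem_univ _, rfl⟩
    · refine Finset.mem_image.2 ⟨(y, x), Finset.mem_univ _, ?_⟩
      simp only [Bool.not_true]
      rw [Sym2.eq_swap]
  have hNcard : ∀ p, (N p).card = k + 1 := by
    rintro ⟨i, b, x⟩
    rw [Finset.card_image_of_injective, Finset.card_univ, Fintype.card_fin]
    intro y y' h
    by_contra hne
    refine hc (some (i, b, x)) (some (i, !b, y)) (some (i, !b, y')) (hadj i b x y)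
      (hadj i b x y') ?_ h
    simpa using hne
  have hQcard : ∀ i, k + 1 ≤ (Q i).card := by
    intro i
    rw [← hNcard (i, false, 0)]
    exact Finset.card_le_card (hNQ (i, false, 0))
  -- two components that use more than k + 1 colours together
  obtain ⟨i0, j0, hij, hU⟩ : ∃ i j, i ≠ j ∧ k + 2 ≤ (Q i ∪ Q j).card := by
    by_contra hcon
    push Not at hcon
    have heq : ∀ i j, i ≠ j → Q i = Q j := by
      intro i j hij
      have h1 := hcon i j hij
      have h2 : Q i = Q i ∪ Q j := by
        apply Finset.eq_of_subset_of_card_le Finset.subset_union_left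
        have := hQcard i
        omega
      have h3 : Q j = Q i ∪ Q j := by
        apply Finset.eq_of_subset_of_card_le Finset.subset_union_right
        have := hQcard j
        omega
      rw [h2, ← h3]
    have heq' : ∀ i, Q i = Q 0 := by
      intro i
      by_cases h : i = 0
      · rw [h]
      · exact heq i 0 h
    obtain ⟨p, hp⟩ := hmeet (Q 0) (hQA 0) (hQcard 0)
    have hp' : c s(none, some p) ∈ N p := by
      have : N p = Q p.1 := by
        apply Finset.eq_of_subset_of_card_le (hNQ p)
        rw [hNcard, heq' p.1]
        have h01 : (0 : Fin (k + 9)) ≠ 1 := by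
          intro h
          simp at h
        have h1 := hcon 0 1 h01
        have h2 := Finset.card_le_card (Finset.subset_union_left (s₁ := Q 0) (s₂ := Q 1))
        omega
      rw [this, heq']
      exact hp
    obtain ⟨y, _, hy⟩ := Finset.mem_image.1 hp'
    refine hc (some p) (some (p.1, !p.2.1, y)) none (hadj p.1 p.2.1 p.2.2 y) trivial (by simp) ?_
    rw [Sym2.eq_swap (a := some p) (b := none)]
    exact hy
  -- Hall's theorem
  obtain ⟨u, hu1, _, hu2⟩ := Finset.exists_subsuperset_card_eq
    (s := ({i0, j0} : Finset (Fin (k + 9)))) (t := Finset.univ) (n := k + 2)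
    (Finset.subset_univ _) (by rw [Finset.card_pair hij]; omega) (by simp)
  obtain ⟨q, hqinj, hq⟩ := (Finset.all_card_le_biUnion_card_iff_exists_injective
    (fun x : u => Q x.1)).1 (by
      intro s
      rcases s.eq_empty_or_nonempty with rfl | ⟨x, hx⟩
      · simp
      by_cases hs : s.card ≤ k + 1
      · refine hs.trans ((hQcard x.1).trans (Finset.card_le_card ?_))
        exact Finset.subset_biUnion_of_mem (fun x : u => Q x.1) hx
      · have hcu : Fintype.card u = k + 2 := by rw [Fintype.card_coe, hu2]
        have hle : s.card ≤ Fintype.card u := Finset.card_le_univ s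
        have hsu : s = Finset.univ := by
          rw [← Finset.card_eq_iff_eq_univ]
          omega
        have h1 : s.card = k + 2 := by omega
        rw [h1]
        refine hU.trans (Finset.card_le_card ?_)
        apply Finset.union_subset
        · exact Finset.subset_biUnion_of_mem (fun x : u => Q x.1)
            (x := ⟨i0, hu1 (by simp)⟩) (by rw [hsu]; exact Finset.mem_univ _)
        · exact Finset.subset_biUnion_of_mem (fun x : u => Q x.1)
            (x := ⟨j0, hu1 (by simp)⟩) (by rw [hsu]; exact Finset.mem_univ _))
  have hex : ∀ x : u, ∃ z : Fin (k + 1) × Fin (k + 1),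
      c s(some (x.1, false, z.1), some (x.1, true, z.2)) = q x := by
    intro x
    obtain ⟨z, _, hz⟩ := Finset.mem_image.1 (hq x)
    exact ⟨z, hz⟩
  choose z hz using hex
  -- choice of the leaves of the star
  let bad : Finset (P k) :=
    (Finset.univ.image (fun x : u => ((x.1, false, (z x).1) : P k))) ∪
    (Finset.univ.image (fun x : u => ((x.1, true, (z x).2) : P k))) ∪
    Finset.univ.filter (fun p : P k => c s(none, some p) ∈ Finset.univ.image q)
  have hcu : Fintype.card u = k + 2 := by rw [Fintype.card_coe, hu2]
  have hbad : bad.card ≤ 3 * (k + 2) := by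
    have h1 : (Finset.univ.image (fun x : u => ((x.1, false, (z x).1) : P k))).card ≤ k + 2 := by
      refine Finset.card_image_le.trans ?_
      rw [Finset.card_univ, hcu]
    have h2 : (Finset.univ.image (fun x : u => ((x.1, true, (z x).2) : P k))).card ≤ k + 2 := by
      refine Finset.card_image_le.trans ?_
      rw [Finset.card_univ, hcu]
    have h3 : (Finset.univ.filter (fun p : P k =>
        c s(none, some p) ∈ Finset.univ.image q)).card ≤ k + 2 := by
      refine (Finset.card_le_card_of_injOn (fun p : P k => c s(none, some p))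
        (t := Finset.univ.image q) ?_ ?_).trans ?_
      · intro p hp
        simpa using hp
      · intro p _ p' _ h
        exact sinj p p' h
      · refine Finset.card_image_le.trans ?_
        rw [Finset.card_univ, hcu]
    have h4 := Finset.card_union_le
      ((Finset.univ.image (fun x : u => ((x.1, false, (z x).1) : P k))) ∪
        (Finset.univ.image (fun x : u => ((x.1, true, (z x).2) : P k))))
      (Finset.univ.filter (fun p : P k => c s(none, some p) ∈ Finset.univ.image q))
    have h5 := Finset.card_union_le
      (Finset.univ.image (fun x : u => ((x.1, false, (z x).1) : P k)))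
      (Finset.univ.image (fun x : u => ((x.1, true, (z x).2) : P k)))
    simp only [bad]
    omega
  have hgood : k + 3 ≤ badᶜ.card := by
    rw [Finset.card_compl]
    have : Fintype.card (P k) = (k + 9) * (2 * (k + 1)) := by
      simp [P]
    rw [this]
    have : 4 * k + 9 ≤ (k + 9) * (2 * (k + 1)) := by nlinarith
    omega
  obtain ⟨g, hginj, hg⟩ : ∃ g : Fin (k + 3) → P k, Function.Injective g ∧ ∀ i, g i ∉ bad := by
    obtain ⟨T', hT', hcard⟩ := Finset.exists_subset_card_eq hgood
    refine ⟨fun i => (T'.equivFin.symm (Fin.cast hcard.symm i)).1, ?_, ?_⟩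
    · intro a b hab
      have := T'.equivFin.symm.injective (Subtype.ext hab)
      simpa [Fin.ext_iff] using this
    · intro i
      exact Finset.mem_compl.1 (hT' (T'.equivFin.symm (Fin.cast hcard.symm i)).2)
  have hg1 : ∀ i x, g i ≠ (x.1, false, (z x).1) := by
    intro i x h
    apply hg i
    simp only [bad, Finset.mem_union]
    exact Or.inl (Or.inl (Finset.mem_image.2 ⟨x, Finset.mem_univ _, h.symm⟩))
  have hg2 : ∀ i x, g i ≠ (x.1, true, (z x).2) := by
    intro i x h
    apply hg i
    simp only [bad, Finset.mem_union]
    exact Or.inl (Or.inr (Finset.mem_image.2 ⟨x, Finset.mem_univ _, h.symm⟩))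
  have hg3 : ∀ i x, c s(none, some (g i)) ≠ q x := by
    intro i x h
    apply hg i
    simp only [bad, Finset.mem_union]
    right
    rw [Finset.mem_filter]
    exact ⟨Finset.mem_univ _, Finset.mem_image.2 ⟨x, Finset.mem_univ _, h.symm⟩⟩
  let e : Fin (k + 2) ≃ u := (Fintype.equivFinOfCardEq hcu).symm
  let f : Option (Fin (k + 3)) ⊕ (Fin (k + 2) × Bool) → Option (P k) := fun x => match x with
    | .inl none => none
    | .inl (some i) => some (g i)
    | .inr (m, false) => some ((e m).1, false, (z (e m)).1)
    | .inr (m, true) => some ((e m).1, true, (z (e m)).2)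
  refine ⟨f, ?_, ?_, ?_⟩
  · rintro ((_ | i) | ⟨m, b⟩) ((_ | j) | ⟨m', b'⟩) h
    · rfl
    · simp [f] at h
    · cases b' <;> simp [f] at h
    · simp [f] at h
    · have : g i = g j := by simpa [f] using h
      rw [hginj this]
    · exfalso
      cases b'
      · exact hg1 i (e m') (Option.some_injective _ h)
      · exact hg2 i (e m') (Option.some_injective _ h)
    · cases b <;> simp [f] at h
    · exfalso
      cases b
      · exact hg1 j (e m) (Option.some_injective _ h).symm
      · exact hg2 j (e m) (Option.some_injective _ h).symm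
    · cases b <;> cases b'
      · have : (e m).1 = (e m').1 := congrArg Prod.fst (Option.some_injective _ h)
        rw [e.injective (Subtype.ext this)]
      · simp [f] at h
      · simp [f] at h
      · have : (e m).1 = (e m').1 := congrArg Prod.fst (Option.some_injective _ h)
        rw [e.injective (Subtype.ext this)]
  · rintro ((_ | i) | ⟨m, b⟩) ((_ | j) | ⟨m', b'⟩) h
    · exact h.elim
    · trivial
    · exact h.elim
    · trivial
    · exact h.elim
    · exact h.elim
    · exact h.elim
    · exact h.elim
    · obtain ⟨h1, h2⟩ : m = m' ∧ b ≠ b' := h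
      subst h1
      cases b <;> cases b'
      · exact (h2 rfl).elim
      · exact ⟨rfl, by simp⟩
      · exact ⟨rfl, by simp⟩
      · exact (h2 rfl).elim
  · have c1 : ∀ i, c (Sym2.map f s(.inl none, .inl (some i))) = c s(none, some (g i)) := by
      intro i
      rw [Sym2.map_mk]
    have c2 : ∀ m, c (Sym2.map f s(.inr (m, false), .inr (m, true))) = q (e m) := by
      intro m
      rw [Sym2.map_mk]
      exact hz (e m)
    intro d hd d' hd' hne
    rcases edge_smallH k d hd with ⟨i, rfl⟩ | ⟨m, rfl⟩ <;>
      rcases edge_smallH k d' hd' with ⟨i', rfl⟩ | ⟨m', rfl⟩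
    · rw [c1, c1]
      intro h
      exact hne (by rw [hginj (sinj _ _ h)])
    · rw [c1, c2]
      exact hg3 _ _
    · rw [c1, c2]
      exact (hg3 _ _).symm
    · rw [c2, c2]
      intro h
      exact hne (by rw [e.injective (hqinj h)])

/-- **Result** (answer to Q1 of MP_415bd8_co: no such `k` exists). For every `k` there are finite
graphs `H` and `G` such that every proper edge colouring of `G` with at most `χ'(G) + k` colours
contains a rainbow copy of `H`, while some proper edge colouring of `G` contains no rainbow copy of
`H`. -/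
theorem result : ∀ k : ℕ, ∃ (W : Type) (_ : Fintype W) (H : SimpleGraph W)
    (V : Type) (_ : Fintype V) (G : SimpleGraph V),
    (∀ c : Sym2 V → ℕ, IsProper G c → numColours G c ≤ chromaticIndex G + k →
      HasRainbowCopy H G c) ∧
    ∃ c : Sym2 V → ℕ, IsProper G c ∧ ¬ HasRainbowCopy H G c := by
  intro k
  exact ⟨_, inferInstance, smallH k, _, inferInstance, bigG k, part1 k, part2 k⟩

end Pool.Agent.Results.MP_415bd8_co.NoUniformSurplus
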